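import Pool.Agent.H96.DE.Ser

set_option autoImplicit false

/-!
# [H96 DE QfD] the quadratic form `Dq`
-/

namespace Pool.Agent.H96.DE

open MeasureTheory Set Filter Topology Pool.Agent.H74.SX Pool.Agent.H74.DD Pool.Agent.H74.DE

theorem conj_ep (θ : ℝ) : (starRingEnd ℂ) (ep θ) = H74.DD.em θ := by
  rw [ep, H74.DD.em, ← Complex.exp_conj]
  congr 1
  simp

theorem gh_diff {g : ℂ → ℂ} {ρ : ℝ} (h : Good g ρ) {z : ℂ} (hz : ‖z‖ < ρ) : DifferentiableAt ℂ (gh g) z := by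
  have h1 : DifferentiableAt ℂ g ((starRingEnd ℂ) z) :=
    h.hol.differentiableAt (Metric.isOpen_ball.mem_nhds (by
      rw [Metric.mem_ball, dist_zero_right, RCLike.norm_conj]; exact hz))
  exact differentiableAt_conj_conj_iff.2 h1

theorem gh_deriv (g : ℂ → ℂ) (z : ℂ) : deriv (gh g) z = (starRingEnd ℂ) (deriv g ((starRingEnd ℂ) z)) := by
  have h1 := congrFun (deriv_conj_conj (f := g)) z
  exact h1

theorem g2_deriv {g : ℂ → ℂ} {ρ : ℝ} (h : Good g ρ) {z : ℂ} (hz : ‖z‖ < ρ) :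
    deriv (g2 g) z = (starRingEnd ℂ) (2 * ((starRingEnd ℂ) z * g ((starRingEnd ℂ) z)) +
      (starRingEnd ℂ) z ^ 2 * deriv g ((starRingEnd ℂ) z)) := by
  have h1 : HasDerivAt (gh g) (deriv (gh g) z) z := (gh_diff h hz).hasDerivAt
  have h2 : HasDerivAt (fun z : ℂ => z ^ 2) (2 * z) z := by
    simpa using hasDerivAt_pow 2 z
  have h3 : HasDerivAt (g2 g) (2 * z * gh g z + z ^ 2 * deriv (gh g) z) z := h2.mul h1
  rw [h3.deriv, gh_deriv, gh]
  simp only [map_add, map_mul, map_pow, Complex.conj_conj]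
  have h4 : (starRingEnd ℂ) (2 : ℂ) = 2 := Complex.conj_ofNat 2
  rw [h4]
  ring

theorem sA {g : ℂ → ℂ} {ρ : ℝ} (h : Good g ρ) {z : ℂ} (hz : ‖z‖ < ρ) :
    HasSum (fun n => cf g n * z ^ (n + 1)) (z * g z) := by
  have h1 := (ser h hz).mul_left z
  refine h1.congr_fun fun n => ?_
  ring

theorem sB {g : ℂ → ℂ} {ρ : ℝ} (h : Good g ρ) {z : ℂ} (hz : ‖z‖ < ρ) :
    HasSum (fun n : ℕ => ((n : ℂ) * cf g n) * z ^ (n + 1)) (z ^ 2 * deriv g z) := by
  have h1 := (serD h hz).mul_left z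
  have h2 : z * (z * deriv g z) = z ^ 2 * deriv g z := by ring
  rw [h2] at h1
  refine h1.congr_fun fun n => ?_
  ring

theorem contE {f : ℂ → ℂ} {ρ : ℝ} (h : Good f ρ) : Continuous fun θ : ℝ => f (H74.DD.em θ) :=
  h.hol.continuousOn.comp_continuous em_cont fun θ => by
    rw [Metric.mem_ball, dist_zero_right, em_norm]
    exact h.one_lt

theorem emlt {f : ℂ → ℂ} {ρ : ℝ} (h : Good f ρ) (θ : ℝ) : ‖H74.DD.em θ‖ < ρ := by
  rw [em_norm]
  exact h.one_lt

noncomputable def A (g : ℂ → ℂ) (θ : ℝ) : ℂ := H74.DD.em θ * g (H74.DD.em θ)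
noncomputable def B (g : ℂ → ℂ) (θ : ℝ) : ℂ := H74.DD.em θ ^ 2 * deriv g (H74.DD.em θ)

theorem Ac {g : ℂ → ℂ} {ρ : ℝ} (h : Good g ρ) : Continuous (A g) := em_cont.mul (contE h)
theorem Bc {g : ℂ → ℂ} {ρ : ℝ} (h : Good g ρ) : Continuous (B g) := (em_cont.pow 2).mul (contE (goodD h))

theorem pAA {g : ℂ → ℂ} {ρ : ℝ} (h : Good g ρ) :
    HasSum (fun n => 2 * Real.pi * ‖cf g n‖ ^ 2)
      (∫ θ in (0 : ℝ)..(2 * Real.pi), A g θ * (starRingEnd ℂ) (A g θ)).re := by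
  have h1 := circ (cf g) (cf g) (sumn h) (sumn h) (A g) (A g) (fun θ => sA h (emlt h θ)) (fun θ => sA h (emlt h θ)) (Ac h)
  have h2 := Complex.hasSum_re h1
  refine h2.congr_fun fun n => ?_
  rw [Complex.mul_conj, Complex.normSq_eq_norm_sq]
  have h3 : (2 * (Real.pi : ℂ) * ((‖cf g n‖ ^ 2 : ℝ) : ℂ)) = ((2 * Real.pi * ‖cf g n‖ ^ 2 : ℝ) : ℂ) := by
    push_cast; ring
  rw [h3, Complex.ofReal_re]

theorem pAB {g : ℂ → ℂ} {ρ : ℝ} (h : Good g ρ) :
    HasSum (fun n : ℕ => 2 * Real.pi * (n * ‖cf g n‖ ^ 2))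
      (∫ θ in (0 : ℝ)..(2 * Real.pi), A g θ * (starRingEnd ℂ) (B g θ)).re := by
  have h1 := circ (cf g) (fun n => (n : ℂ) * cf g n) (sumn h) (sumD h) (A g) (B g) (fun θ => sA h (emlt h θ))
    (fun θ => sB h (emlt h θ)) (Bc h)
  have h2 := Complex.hasSum_re h1
  refine h2.congr_fun fun n => ?_
  have h3 : 2 * (Real.pi : ℂ) * (cf g n * (starRingEnd ℂ) ((n : ℂ) * cf g n)) =
      2 * (Real.pi : ℂ) * ((n : ℂ) * (cf g n * (starRingEnd ℂ) (cf g n))) := by
    rw [map_mul, Complex.conj_natCast]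
    ring
  rw [h3, Complex.mul_conj, Complex.normSq_eq_norm_sq]
  have h4 : (2 * (Real.pi : ℂ) * ((n : ℂ) * ((‖cf g n‖ ^ 2 : ℝ) : ℂ))) = ((2 * Real.pi * (n * ‖cf g n‖ ^ 2) : ℝ) : ℂ) := by
    push_cast; ring
  rw [h4, Complex.ofReal_re]

theorem zAA {g : ℂ → ℂ} {ρ : ℝ} (h : Good g ρ) : ∫ θ in (0 : ℝ)..(2 * Real.pi), A g θ * A g θ = 0 := by
  have h1 := mv (fun z => (z * g z) * (z * g z)) ρ ⟨h.one_lt, by
    exact (differentiableOn_id.mul h.hol).mul (differentiableOn_id.mul h.hol)⟩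
  simpa [A] using h1

theorem zAB {g : ℂ → ℂ} {ρ : ℝ} (h : Good g ρ) : ∫ θ in (0 : ℝ)..(2 * Real.pi), A g θ * B g θ = 0 := by
  have h1 := mv (fun z => (z * g z) * (z ^ 2 * deriv g z)) ρ ⟨h.one_lt, by
    exact (differentiableOn_id.mul h.hol).mul ((differentiableOn_pow 2).mul (goodD h).hol)⟩
  simpa [A, B] using h1

theorem ire {f : ℝ → ℂ} (hf : Continuous f) :
    ∫ θ in (0 : ℝ)..(2 * Real.pi), (f θ).re = (∫ θ in (0 : ℝ)..(2 * Real.pi), f θ).re := by
  have h1 := Complex.reCLM.intervalIntegral_comp_comm (hf.intervalIntegrable 0 (2 * Real.pi)) (μ := volume)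
  simpa using h1

theorem i1 {g : ℂ → ℂ} {ρ : ℝ} (h : Good g ρ) :
    ∫ θ in (0 : ℝ)..(2 * Real.pi), (qq g θ ^ 2 / 2 + q2 g θ) =
      -(1 / 2) * (∫ θ in (0 : ℝ)..(2 * Real.pi), A g θ * (starRingEnd ℂ) (B g θ)).re := by
  have hA := Ac h
  have hB := Bc h
  have hB' : Continuous fun θ => (starRingEnd ℂ) (B g θ) := Complex.continuous_conj.comp hB
  have h1 : ∀ θ, qq g θ ^ 2 / 2 + q2 g θ =
      ((1 / 2 : ℂ) * (A g θ * A g θ) - (1 / 2 : ℂ) * (A g θ * (starRingEnd ℂ) (B g θ)) + (1 / 2 : ℂ) * (A g θ * B g θ)).re := by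
    intro θ
    have e1 : qq g θ = (A g θ).re := rfl
    have e2 : pp g θ = (A g θ).im := rfl
    have e3 : xx g θ = B g θ := rfl
    rw [q2, e1, e2, e3]
    simp
    ring
  simp only [h1]
  rw [ire (by fun_prop)]
  rw [intervalIntegral.integral_add (Continuous.intervalIntegrable (by fun_prop) _ _)
    (Continuous.intervalIntegrable (by fun_prop) _ _),
    intervalIntegral.integral_sub (Continuous.intervalIntegrable (by fun_prop) _ _)
    (Continuous.intervalIntegrable (by fun_prop) _ _)]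
  rw [intervalIntegral.integral_const_mul, intervalIntegral.integral_const_mul, intervalIntegral.integral_const_mul,
    zAA h, zAB h]
  simp

theorem i2 {g : ℂ → ℂ} {ρ : ℝ} (h : Good g ρ) {ζ : ℂ} (hζ : ‖ζ‖ = 1) :
    ∫ θ in (0 : ℝ)..(2 * Real.pi), qq g θ * (ζ * kk g ζ (ep θ)).re =
      ((∫ θ in (0 : ℝ)..(2 * Real.pi), ((qq g θ : ℝ) : ℂ) * (starRingEnd ℂ) (deriv g (H74.DD.em θ))) * ζ ^ 2).re -
      (∫ θ in (0 : ℝ)..(2 * Real.pi), A g θ * (starRingEnd ℂ) (A g θ)).re -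
      (1 / 2) * (∫ θ in (0 : ℝ)..(2 * Real.pi), A g θ * (starRingEnd ℂ) (B g θ)).re := by
  have hA := Ac h
  have hB := Bc h
  have hA' : Continuous fun θ => (starRingEnd ℂ) (A g θ) := Complex.continuous_conj.comp hA
  have hB' : Continuous fun θ => (starRingEnd ℂ) (B g θ) := Complex.continuous_conj.comp hB
  have hD' : Continuous fun θ => (starRingEnd ℂ) (deriv g (H74.DD.em θ)) :=
    Complex.continuous_conj.comp (contE (goodD h))
  have hq : Continuous fun θ => ((qq g θ : ℝ) : ℂ) :=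
    Complex.continuous_ofReal.comp (Complex.continuous_re.comp hA)
  have hn : ζ * (starRingEnd ℂ) ζ = 1 := by
    rw [Complex.mul_conj, Complex.normSq_eq_norm_sq, hζ]
    simp
  have h1 : ∀ θ, qq g θ * (ζ * kk g ζ (ep θ)).re =
      ((((qq g θ : ℝ) : ℂ) * (starRingEnd ℂ) (deriv g (H74.DD.em θ))) * ζ ^ 2 -
        A g θ * (starRingEnd ℂ) (A g θ) - (1 / 2 : ℂ) * (A g θ * (starRingEnd ℂ) (B g θ)) -
        A g θ * A g θ - (1 / 2 : ℂ) * (A g θ * B g θ)).re := by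
    intro θ
    have e0 : ‖ep θ‖ < ρ := by
      rw [← RCLike.norm_conj, conj_ep]
      exact emlt h θ
    have e1 : ζ * kk g ζ (ep θ) = (starRingEnd ℂ) (deriv g (H74.DD.em θ)) * ζ ^ 2 -
        (starRingEnd ℂ) (2 * A g θ + B g θ) := by
      rw [kk, gh_deriv, g2_deriv h e0, conj_ep]
      have e2 : ζ * (ζ * (starRingEnd ℂ) (deriv g (H74.DD.em θ)) - (starRingEnd ℂ) ζ *
          (starRingEnd ℂ) (2 * (H74.DD.em θ * g (H74.DD.em θ)) + H74.DD.em θ ^ 2 * deriv g (H74.DD.em θ))) =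
          (starRingEnd ℂ) (deriv g (H74.DD.em θ)) * ζ ^ 2 - (ζ * (starRingEnd ℂ) ζ) *
          (starRingEnd ℂ) (2 * (H74.DD.em θ * g (H74.DD.em θ)) + H74.DD.em θ ^ 2 * deriv g (H74.DD.em θ)) := by ring
      rw [e2, hn, one_mul]
      rfl
    rw [e1]
    have e3 : qq g θ = (A g θ).re := rfl
    rw [e3, mul_assoc (((A g θ).re : ℝ) : ℂ)]
    generalize (starRingEnd ℂ) (deriv g (H74.DD.em θ)) * ζ ^ 2 = Y
    simp
    ring
  simp only [h1]
  rw [ire (by fun_prop)]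
  rw [intervalIntegral.integral_sub (Continuous.intervalIntegrable (by fun_prop) _ _)
    (Continuous.intervalIntegrable (by fun_prop) _ _),
    intervalIntegral.integral_sub (Continuous.intervalIntegrable (by fun_prop) _ _)
    (Continuous.intervalIntegrable (by fun_prop) _ _),
    intervalIntegral.integral_sub (Continuous.intervalIntegrable (by fun_prop) _ _)
    (Continuous.intervalIntegrable (by fun_prop) _ _),
    intervalIntegral.integral_sub (Continuous.intervalIntegrable (by fun_prop) _ _)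
    (Continuous.intervalIntegrable (by fun_prop) _ _)]
  rw [intervalIntegral.integral_const_mul, intervalIntegral.integral_const_mul, intervalIntegral.integral_mul_const,
    zAA h, zAB h]
  simp

theorem ballc {ρ : ℝ} (h1 : 1 < ρ) {f : ℂ → ℂ} (hf : ∀ z, ‖z‖ < ρ → ContinuousAt f z) :
    IntegrableOn f (Metric.ball (0 : ℂ) 1) := by
  have hc : ContinuousOn f (Metric.closedBall (0 : ℂ) 1) := fun z hz => by
    rw [Metric.mem_closedBall, dist_zero_right] at hz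
    exact (hf z (hz.trans_lt h1)).continuousWithinAt
  exact (hc.integrableOn_compact (isCompact_closedBall 0 1)).mono_set Metric.ball_subset_closedBall

theorem nA {g : ℂ → ℂ} {ρ : ℝ} (h : Good g ρ) :
    HasSum (fun n : ℕ => Real.pi * (n * ‖cf g n‖ ^ 2))
      (∫ z in Metric.ball (0 : ℂ) 1, ‖deriv (gh g) z‖ ^ 2) := by
  have hlt : ∀ z ∈ Metric.ball (0 : ℂ) 1, ‖(starRingEnd ℂ) z‖ < ρ := fun z hz => by
    rw [Metric.mem_ball, dist_zero_right] at hz
    rw [RCLike.norm_conj]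
    exact hz.trans h.one_lt
  have h1 := disk 0 (cf (deriv g)) (sumn (goodD h)) (fun z => deriv g ((starRingEnd ℂ) z))
    (fun z hz => by simpa using ser (goodD h) (hlt z hz))
    ((goodD h).hol.continuousOn.comp Complex.continuous_conj.continuousOn fun z hz => by
      rw [Metric.mem_ball, dist_zero_right]; exact hlt z hz)
  have h2 : ∀ z, ‖deriv (gh g) z‖ ^ 2 = ‖deriv g ((starRingEnd ℂ) z)‖ ^ 2 := fun z => by
    rw [gh_deriv, RCLike.norm_conj]
  simp only [h2]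
  have h3 : (fun n : ℕ => Real.pi / (n + (0 : ℕ) + 1) * ‖cf (deriv g) n‖ ^ 2) =
      fun n : ℕ => Real.pi * (((n + 1 : ℕ) : ℝ) * ‖cf g (n + 1)‖ ^ 2) := by
    funext n
    rw [cfD, norm_mul]
    have h4 : ‖((n : ℂ) + 1)‖ = (n : ℝ) + 1 := by
      have := Complex.norm_natCast (n + 1)
      push_cast at this
      exact this
    rw [h4]
    have h5 : (n : ℝ) + 1 ≠ 0 := by positivity
    push_cast
    field_simp
    ring
  rw [h3] at h1
  have h4 := (hasSum_nat_add_iff (f := fun n : ℕ => Real.pi * ((n : ℝ) * ‖cf g n‖ ^ 2)) 1).1 h1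
  simpa using h4

theorem nB {g : ℂ → ℂ} {ρ : ℝ} (h : Good g ρ) :
    HasSum (fun n : ℕ => Real.pi * ((n + 2) * ‖cf g n‖ ^ 2))
      (∫ z in Metric.ball (0 : ℂ) 1, ‖deriv (g2 g) z‖ ^ 2) := by
  have hlt : ∀ z ∈ Metric.ball (0 : ℂ) 1, ‖(starRingEnd ℂ) z‖ < ρ := fun z hz => by
    rw [Metric.mem_ball, dist_zero_right] at hz
    rw [RCLike.norm_conj]
    exact hz.trans h.one_lt
  have hs : Summable fun n : ℕ => ‖((n : ℂ) + 2) * cf g n‖ := by
    refine ((sumD h).add ((sumn h).mul_left 2)).of_nonneg_of_le (fun n => norm_nonneg _) fun n => ?_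
    rw [add_mul]
    refine (norm_add_le _ _).trans ?_
    rw [norm_mul (2 : ℂ), Complex.norm_ofNat]
  have hco : ∀ f : ℂ → ℂ, Good f ρ → ContinuousOn (fun z => f ((starRingEnd ℂ) z)) (Metric.ball (0 : ℂ) 1) :=
    fun f hf => hf.hol.continuousOn.comp Complex.continuous_conj.continuousOn fun z hz => by
      rw [Metric.mem_ball, dist_zero_right]; exact hlt z hz
  have hcj : ContinuousOn (fun z => (starRingEnd ℂ) z) (Metric.ball (0 : ℂ) 1) := Complex.continuous_conj.continuousOn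
  have h1 := disk 1 (fun n => ((n : ℂ) + 2) * cf g n) hs
    (fun z => 2 * ((starRingEnd ℂ) z * g ((starRingEnd ℂ) z)) + (starRingEnd ℂ) z ^ 2 * deriv g ((starRingEnd ℂ) z))
    (fun z hz => by
      have e1 := ((sA h (hlt z hz)).mul_left 2).add (sB h (hlt z hz))
      refine e1.congr_fun fun n => ?_
      ring)
    ((continuousOn_const.mul (hcj.mul (hco g h))).add ((hcj.pow 2).mul (hco _ (goodD h))))
  have h2 : ∫ z in Metric.ball (0 : ℂ) 1, ‖deriv (g2 g) z‖ ^ 2 = ∫ z in Metric.ball (0 : ℂ) 1,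
      ‖2 * ((starRingEnd ℂ) z * g ((starRingEnd ℂ) z)) + (starRingEnd ℂ) z ^ 2 * deriv g ((starRingEnd ℂ) z)‖ ^ 2 := by
    refine setIntegral_congr_fun measurableSet_ball fun z hz => ?_
    have hz' : ‖z‖ < ρ := by
      rw [← RCLike.norm_conj]
      exact hlt z hz
    show ‖deriv (g2 g) z‖ ^ 2 = _
    rw [g2_deriv h hz', RCLike.norm_conj]
  rw [h2]
  refine h1.congr_fun fun n => ?_
  rw [norm_mul]
  have h4 : ‖((n : ℂ) + 2)‖ = (n : ℝ) + 2 := by
    have := Complex.norm_natCast (n + 2)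
    push_cast at this
    exact this
  rw [h4]
  have h5 : (n : ℝ) + (1 : ℕ) + 1 ≠ 0 := by positivity
  push_cast at h5 ⊢
  field_simp
  ring

theorem i3 {g : ℂ → ℂ} {ρ : ℝ} (h : Good g ρ) {ζ : ℂ} (hζ : ‖ζ‖ = 1) :
    ∫ z in Metric.ball (0 : ℂ) 1, ‖kk g ζ z‖ ^ 2 =
      (∫ z in Metric.ball (0 : ℂ) 1, ‖deriv (gh g) z‖ ^ 2) + (∫ z in Metric.ball (0 : ℂ) 1, ‖deriv (g2 g) z‖ ^ 2) -
      2 * ((∫ z in Metric.ball (0 : ℂ) 1, deriv (gh g) z * (starRingEnd ℂ) (deriv (g2 g) z)) * ζ ^ 2).re := by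
  have hA : ∀ z, ‖z‖ < ρ → ContinuousAt (deriv (gh g)) z := fun z hz => by
    have e : deriv (gh g) = fun z => (starRingEnd ℂ) (deriv g ((starRingEnd ℂ) z)) := funext (gh_deriv g)
    rw [e]
    have e2 : ContinuousAt (deriv g) ((starRingEnd ℂ) z) :=
      (goodD h).hol.continuousOn.continuousAt (Metric.isOpen_ball.mem_nhds (by
        rw [Metric.mem_ball, dist_zero_right, RCLike.norm_conj]; exact hz))
    exact Complex.continuous_conj.continuousAt.comp (ContinuousAt.comp (f := fun z => (starRingEnd ℂ) z) e2 Complex.continuous_conj.continuousAt)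
  have hG : DifferentiableOn ℂ (g2 g) (Metric.ball 0 ρ) := fun z hz => by
    rw [Metric.mem_ball, dist_zero_right] at hz
    exact ((differentiableAt_pow 2).mul (gh_diff h hz)).differentiableWithinAt
  have hB : ∀ z, ‖z‖ < ρ → ContinuousAt (deriv (g2 g)) z := fun z hz =>
    (hG.deriv Metric.isOpen_ball).continuousOn.continuousAt (Metric.isOpen_ball.mem_nhds (by
        rw [Metric.mem_ball, dist_zero_right]; exact hz))
  have hAi : IntegrableOn (fun z => ‖deriv (gh g) z‖ ^ 2) (Metric.ball (0 : ℂ) 1) := by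
    have hc : ContinuousOn (fun z => ‖deriv (gh g) z‖ ^ 2) (Metric.closedBall (0 : ℂ) 1) := fun z hz => by
      rw [Metric.mem_closedBall, dist_zero_right] at hz
      exact ((hA z (hz.trans_lt h.one_lt)).norm.pow 2).continuousWithinAt
    exact (hc.integrableOn_compact (isCompact_closedBall 0 1)).mono_set Metric.ball_subset_closedBall
  have hBi : IntegrableOn (fun z => ‖deriv (g2 g) z‖ ^ 2) (Metric.ball (0 : ℂ) 1) := by
    have hc : ContinuousOn (fun z => ‖deriv (g2 g) z‖ ^ 2) (Metric.closedBall (0 : ℂ) 1) := fun z hz => by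
      rw [Metric.mem_closedBall, dist_zero_right] at hz
      exact ((hB z (hz.trans_lt h.one_lt)).norm.pow 2).continuousWithinAt
    exact (hc.integrableOn_compact (isCompact_closedBall 0 1)).mono_set Metric.ball_subset_closedBall
  have hABi : IntegrableOn (fun z => deriv (gh g) z * (starRingEnd ℂ) (deriv (g2 g) z)) (Metric.ball (0 : ℂ) 1) :=
    ballc h.one_lt fun z hz => (hA z hz).mul (Complex.continuous_conj.continuousAt.comp (hB z hz))
  have h1 : ∀ z, ‖kk g ζ z‖ ^ 2 = ‖deriv (gh g) z‖ ^ 2 + ‖deriv (g2 g) z‖ ^ 2 -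
      2 * (deriv (gh g) z * (starRingEnd ℂ) (deriv (g2 g) z) * ζ ^ 2).re := by
    intro z
    rw [kk]
    generalize deriv (gh g) z = a
    generalize deriv (g2 g) z = b
    have e1 : ζ.re * ζ.re + ζ.im * ζ.im = 1 := by
      have := Complex.sq_norm ζ
      rw [hζ, Complex.normSq_apply] at this
      linarith
    rw [Complex.sq_norm, Complex.sq_norm, Complex.sq_norm, Complex.normSq_apply, Complex.normSq_apply, Complex.normSq_apply]
    simp only [pow_two, Complex.mul_re, Complex.mul_im, Complex.sub_re, Complex.sub_im, Complex.conj_re, Complex.conj_im]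
    linear_combination (a.re * a.re + a.im * a.im + b.re * b.re + b.im * b.im) * e1
  simp only [h1]
  have h2 : IntegrableOn (fun z => 2 * (deriv (gh g) z * (starRingEnd ℂ) (deriv (g2 g) z) * ζ ^ 2).re) (Metric.ball (0 : ℂ) 1) :=
    ((hABi.mul_const (ζ ^ 2)).re).const_mul 2
  have h4 : IntegrableOn (fun z => ‖deriv (gh g) z‖ ^ 2 + ‖deriv (g2 g) z‖ ^ 2) (Metric.ball (0 : ℂ) 1) := hAi.add hBi
  rw [integral_sub h4 h2, integral_add hAi hBi, integral_const_mul]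
  congr 2
  have h3 := Complex.reCLM.integral_comp_comm (hABi.mul_const (ζ ^ 2))
  rw [integral_mul_const] at h3
  exact h3

theorem qfd : QfDStmt := by
  intro g ρ h0
  have h := h0.good
  set PA := (∫ θ in (0 : ℝ)..(2 * Real.pi), A g θ * (starRingEnd ℂ) (A g θ)).re with hPA
  set PB := (∫ θ in (0 : ℝ)..(2 * Real.pi), A g θ * (starRingEnd ℂ) (B g θ)).re with hPB
  set NA := ∫ z in Metric.ball (0 : ℂ) 1, ‖deriv (gh g) z‖ ^ 2 with hNA
  set NB := ∫ z in Metric.ball (0 : ℂ) 1, ‖deriv (g2 g) z‖ ^ 2 with hNB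
  set β1 := ∫ θ in (0 : ℝ)..(2 * Real.pi), ((qq g θ : ℝ) : ℂ) * (starRingEnd ℂ) (deriv g (H74.DD.em θ)) with hβ1
  set β2 := ∫ z in Metric.ball (0 : ℂ) 1, deriv (gh g) z * (starRingEnd ℂ) (deriv (g2 g) z) with hβ2
  refine ⟨(-PB - PA + 1 / 4 * (NA + NB)) / Real.pi, β1 - 1 / 2 * β2, ?_, ?_⟩
  · have s1 := ((((pAB h).neg.sub (pAA h)).add (((nA h).add (nB h)).mul_left (1 / 4 : ℝ))).div_const Real.pi)
    refine s1.congr_fun fun n => ?_
    have hpi := Real.pi_ne_zero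
    field_simp
    ring
  · intro ζ hζ
    rw [Dq, i1 h, i2 h hζ, i3 h hζ, ← hPA, ← hPB, ← hNA, ← hNB, ← hβ1, ← hβ2]
    rw [sub_mul, Complex.sub_re, mul_assoc (1 / 2 : ℂ)]
    have e1 : ((1 / 2 : ℂ) * (β2 * ζ ^ 2)).re = 1 / 2 * (β2 * ζ ^ 2).re := by
      generalize β2 * ζ ^ 2 = Y
      simp
    rw [e1]
    have hpi := Real.pi_ne_zero
    field_simp
    ring

end Pool.Agent.H96.DE
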