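import Pool.Agent.H74.DE.Pr2
import Pool.Agent.H74.DD.Mv
import Pool.Agent.H55.Berg1
import Mathlib.Analysis.Calculus.Deriv.Star

set_option autoImplicit false

/-!
# [H96 DE Ser] series and Parseval for `z g`, `z² g'` on the circle and the disk
-/

namespace Pool.Agent.H96.DE

open MeasureTheory Set Filter Topology Pool.Agent.H74.SX Pool.Agent.H74.DD Pool.Agent.H74.DE

theorem goodD {g : ℂ → ℂ} {ρ : ℝ} (h : Good g ρ) : Good (deriv g) ρ :=
  ⟨h.one_lt, h.hol.deriv Metric.isOpen_ball⟩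

theorem cfD (g : ℂ → ℂ) (n : ℕ) : cf (deriv g) n = (n + 1) * cf g (n + 1) := by
  rw [cf, cf, iteratedDeriv_succ', Nat.factorial_succ]
  push_cast
  have h1 : (n.factorial : ℂ) ≠ 0 := by exact_mod_cast n.factorial_ne_zero
  have h2 : ((n : ℂ) + 1) ≠ 0 := by exact_mod_cast n.succ_ne_zero
  field_simp

/-- `z g'(z) = ∑ n a_n z^n` -/
theorem serD {g : ℂ → ℂ} {ρ : ℝ} (h : Good g ρ) {z : ℂ} (hz : ‖z‖ < ρ) :
    HasSum (fun n : ℕ => (n * cf g n) * z ^ n) (z * deriv g z) := by
  have h1 := (ser (goodD h) hz).mul_left z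
  have h2 : (fun n : ℕ => z * (cf (deriv g) n * z ^ n)) =
      fun n : ℕ => (((n + 1 : ℕ) : ℂ) * cf g (n + 1)) * z ^ (n + 1) := by
    funext n
    rw [cfD]
    push_cast
    ring
  rw [h2] at h1
  have h3 := (hasSum_nat_add_iff (f := fun n : ℕ => ((n : ℂ) * cf g n) * z ^ n) 1).1 h1
  simpa using h3

theorem sumD {g : ℂ → ℂ} {ρ : ℝ} (h : Good g ρ) : Summable fun n : ℕ => ‖(n : ℂ) * cf g n‖ := by
  have h1 := (serD h (z := 1) (by rw [norm_one]; exact h.one_lt)).summable
  simp only [one_pow, mul_one] at h1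
  exact h1.norm

/-- circle: basis `e^{-i(n+1)θ}` -/
theorem circ (a b : ℕ → ℂ) (ha : Summable fun n => ‖a n‖) (hb : Summable fun n => ‖b n‖) (F G : ℝ → ℂ)
    (hF : ∀ θ, HasSum (fun n => a n * H74.DD.em θ ^ (n + 1)) (F θ))
    (hG : ∀ θ, HasSum (fun n => b n * H74.DD.em θ ^ (n + 1)) (G θ)) (hGc : Continuous G) :
    HasSum (fun n => 2 * (Real.pi : ℂ) * (a n * (starRingEnd ℂ) (b n)))
      (∫ θ in (0 : ℝ)..(2 * Real.pi), F θ * (starRingEnd ℂ) (G θ)) := by
  rw [intervalIntegral.integral_of_le Real.two_pi_pos.le]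
  refine orth (volume.restrict (Ioc 0 (2 * Real.pi))) (fun n θ => H74.DD.em θ ^ (n + 1))
    (fun n => (em_cont.pow (n + 1)).aestronglyMeasurable)
    (fun n => Eventually.of_forall fun θ => by rw [norm_pow, em_norm, one_pow])
    (fun _ => 2 * (Real.pi : ℂ)) (fun n m => ?_) a b ha hb F G
    (Eventually.of_forall hF) (Eventually.of_forall hG) hGc.aestronglyMeasurable
  rw [← intervalIntegral.integral_of_le Real.two_pi_pos.le]
  have h1 := gamc (n + 1) (m + 1)
  simpa only [Nat.add_right_cancel_iff] using h1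

/-- disk: basis `conj z ^ (n + k)` -/
theorem disk (k : ℕ) (a : ℕ → ℂ) (ha : Summable fun n => ‖a n‖) (F : ℂ → ℂ)
    (hF : ∀ z ∈ Metric.ball (0 : ℂ) 1, HasSum (fun n => a n * ((starRingEnd ℂ) z) ^ (n + k)) (F z))
    (hFm : ContinuousOn F (Metric.ball (0 : ℂ) 1)) :
    HasSum (fun n : ℕ => Real.pi / (n + k + 1) * ‖a n‖ ^ 2) (∫ z in Metric.ball (0 : ℂ) 1, ‖F z‖ ^ 2) := by
  have hfin : IsFiniteMeasure (volume.restrict (Metric.ball (0 : ℂ) 1)) :=
    ⟨by rw [Measure.restrict_apply_univ]; exact measure_ball_lt_top⟩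
  have h1 := orth (volume.restrict (Metric.ball (0 : ℂ) 1)) (fun n z => ((starRingEnd ℂ) z) ^ (n + k))
    (fun n => (Complex.continuous_conj.pow (n + k)).aestronglyMeasurable)
    (fun n => (ae_restrict_iff' measurableSet_ball).2 (Eventually.of_forall fun z hz => by
      rw [norm_pow, RCLike.norm_conj]
      rw [Metric.mem_ball, dist_zero_right] at hz
      exact pow_le_one₀ (norm_nonneg _) hz.le))
    (fun n => ((Real.pi / (n + k + 1) : ℝ) : ℂ)) (fun n m => ?_) a a ha ha F F
    ((ae_restrict_iff' measurableSet_ball).2 (Eventually.of_forall hF))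
    ((ae_restrict_iff' measurableSet_ball).2 (Eventually.of_forall hF))
    (hFm.aestronglyMeasurable measurableSet_ball)
  · have h2 : ∀ z : ℂ, z * (starRingEnd ℂ) z = ((‖z‖ ^ 2 : ℝ) : ℂ) := fun z => by
      rw [Complex.mul_conj, Complex.normSq_eq_norm_sq]
    simp only [h2] at h1
    rw [integral_complex_ofReal] at h1
    rw [← Complex.hasSum_ofReal]
    convert h1 using 2
    push_cast
    ring
  · by_cases hnm : n = m
    · subst hnm
      rw [if_pos rfl]
      have h3 : ∀ z : ℂ, ((starRingEnd ℂ) z) ^ (n + k) * (starRingEnd ℂ) (((starRingEnd ℂ) z) ^ (n + k)) =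
          ((‖z‖ ^ (2 * (n + k)) : ℝ) : ℂ) := by
        intro z
        rw [map_pow, Complex.conj_conj, ← mul_pow, Complex.conj_mul']
        push_cast
        rw [pow_mul]
      simp only [h3]
      rw [integral_complex_ofReal, Pool.Agent.H55.moment]
      push_cast
      ring
    · rw [if_neg hnm]
      have h4 := Pool.Agent.H55.orth_monomials (fun _ => 1) (n := m + k) (m := n + k) (by omega)
      simp only [Complex.ofReal_one, mul_one] at h4
      refine Eq.trans ?_ h4
      congr 1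
      funext z
      simp only [map_pow, Complex.conj_conj]
      ring

end Pool.Agent.H96.DE
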